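import Pool.Agent.Lib.MP_4fbe7c_an.WH.Iface

/-!
Module AIN (helper9): the dissipation of the energy is of order `ε ^ 4` in the mean.
-/

set_option autoImplicit false

open Set Filter Topology

namespace Pool.Agent.Lib.MP_4fbe7c_an.WH.H9

open Pool.Agent.Lib.MP_4fbe7c_an.SD Pool.Agent.Lib.MP_4fbe7c_an.FC
open Pool.Agent.Lib.MP_4fbe7c_an.WH

theorem Yw_nonneg' {L : ℝ} (hL : 0 < L) {N : ℕ} {d : Fin N → ℝ} (hd : ∀ i, 0 < d i)
    (u v : Fin N → ℝ → ℝ → ℝ) (t : ℝ) : 0 ≤ Yw L d u v t := by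
  unfold Yw
  refine Finset.sum_nonneg fun k _ => ?_
  have h1 : 0 ≤ Wg L u t := Finset.sum_nonneg fun k _ => (Real.exp_pos _).le
  have h2 : 0 ≤ gm L u k t := (Real.exp_pos _).le
  have h3 : 0 ≤ yy L u v k t := intervalIntegral.integral_nonneg hL.le fun x _ => sq_nonneg _
  exact mul_nonneg (div_nonneg h2 h1) (mul_nonneg (hd k).le h3)

/-- **AIN** -/
theorem ain (hVst : VStStatement) (hEde : EDeStatement) (hQde : QDeStatement)
    (hJde : JDeStatement) : AInStatement := by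
  intro L b κ Cy a hL hb hκ hCy ha
  refine ⟨1 / 2 * Real.exp κ * L * Cy * (4 * b * L / a + 8 * b ^ 2 * Cy / a), by positivity, ?_⟩
  intro ε m μ N d u v w hC hW hεa hex had
  have hε := hW.hε
  obtain ⟨c₁, hc₁⟩ : ∃ c₁, c₁ = 1 / 2 * Real.exp κ * L * Cy := ⟨_, rfl⟩
  have hc₁0 : 0 < c₁ := by rw [hc₁]; positivity
  refine ⟨fun t => En L m d u v t + c₁ * ε ^ 2 * (Jf L u v t + 8 * b / a * Vs L b u t), ?_⟩
  intro t t0 hreg
  obtain ⟨hE0, hA0, E', hE1, hE2⟩ := hEde L (2 * b) m N d u v w hC t t0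
  obtain ⟨hJ0, J', hJ1, hJ2⟩ := hJde L b ε κ Cy a m μ N d u v w t hC hW ha t0 hCy.le hεa had hreg
  obtain ⟨hV0, V', hV1, hV2⟩ := hVst L b ε m μ N d u v w hC hW hex t t0
  have hYw := Yw_nonneg' hL hC.hd u v t
  constructor
  · have h1 : 0 ≤ 8 * b / a * Vs L b u t := mul_nonneg (by positivity) hV0
    have h2 : 0 ≤ c₁ * ε ^ 2 * (Jf L u v t + 8 * b / a * Vs L b u t) :=
      mul_nonneg (by positivity) (by linarith)
    show 0 ≤ En L m d u v t + c₁ * ε ^ 2 * (Jf L u v t + 8 * b / a * Vs L b u t)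
    linarith
  · refine ⟨E' + c₁ * ε ^ 2 * (J' + 8 * b / a * V'),
      hE1.add ((hJ1.add (hV1.const_mul _)).const_mul _), ?_⟩
    have h1 : ∑ k ∈ PS L u, ue L d u v k t ≤ ∑ k ∈ PS L u,
        Real.exp κ * L * Cy * ε ^ 2 * (gm L u k t * (d k * zq L u v w k t)) :=
      Finset.sum_le_sum fun k hk => (hQde L b ε κ Cy m N d u v w t k hC t0 hreg hk).1
    rw [← Finset.mul_sum] at h1
    set S : ℝ := ∑ k ∈ PS L u, gm L u k t * (d k * zq L u v w k t) with hS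
    have h2 : R2 L m u t ≤ -(2 * V') + ε ^ 2 * L := by
      have := mul_nonneg hb.le hYw
      linarith
    have h3 : 4 * b / a * R2 L m u t ≤ 4 * b / a * (-(2 * V') + ε ^ 2 * L) :=
      mul_le_mul_of_nonneg_left h2 (by positivity)
    have h4 : 1 / 4 * ∑ k ∈ PS L u, ue L d u v k t ≤ c₁ * ε ^ 2 * (1 / 2 * S) := by
      rw [hc₁]
      calc 1 / 4 * ∑ k ∈ PS L u, ue L d u v k t ≤
          1 / 4 * (Real.exp κ * L * Cy * ε ^ 2 * S) := by linarith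
        _ = _ := by ring
    have h5 : c₁ * ε ^ 2 * (1 / 2 * S) ≤
        c₁ * ε ^ 2 * (-J' + 4 * b / a * (-(2 * V') + ε ^ 2 * L) + 8 * b ^ 2 * Cy / a * ε ^ 2) :=
      mul_le_mul_of_nonneg_left (by linarith) (by positivity)
    have h6 : c₁ * ε ^ 2 * (-J' + 4 * b / a * (-(2 * V') + ε ^ 2 * L) +
        8 * b ^ 2 * Cy / a * ε ^ 2) = -(c₁ * ε ^ 2 * (J' + 8 * b / a * V')) +
        c₁ * (4 * b * L / a + 8 * b ^ 2 * Cy / a) * ε ^ 4 := by
      ring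
    have h7 : 1 / 2 * Real.exp κ * L * Cy * (4 * b * L / a + 8 * b ^ 2 * Cy / a) * ε ^ 4 =
        c₁ * (4 * b * L / a + 8 * b ^ 2 * Cy / a) * ε ^ 4 := by rw [hc₁]
    rw [h7]
    linarith

end Pool.Agent.Lib.MP_4fbe7c_an.WH.H9
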