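import Pool.Agent.Lib.MP_4fbe7c_an.WH.Iface

/-!
Module YSM (helper9): `d_k y_k` is eventually of order `ε ^ 2`.
-/

set_option autoImplicit false

open Set Filter Topology

namespace Pool.Agent.Lib.MP_4fbe7c_an.WH.H9

open Pool.Agent.Lib.MP_4fbe7c_an.SD Pool.Agent.Lib.MP_4fbe7c_an.FC
open Pool.Agent.Lib.MP_4fbe7c_an.WH

/-- A linear differential inequality `g' ≤ - k (g - c)` on `[T, ∞)` gives `g ≤ c + δ` eventually. -/
theorem eventual_le {g g' : ℝ → ℝ} {T k c δ : ℝ} (hk : 0 < k) (hδ : 0 < δ)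
    (hd : ∀ t, T ≤ t → HasDerivAt g (g' t) t) (hi : ∀ t, T ≤ t → g' t ≤ -(k * (g t - c))) :
    ∃ T', T ≤ T' ∧ ∀ t, T' ≤ t → g t ≤ c + δ := by
  have hH : ∀ s, T ≤ s → HasDerivAt (fun s => (g s - c) * Real.exp (k * (s - T)))
      (g' s * Real.exp (k * (s - T)) + (g s - c) * (Real.exp (k * (s - T)) * (k * 1))) s := by
    intro s hs
    have h1 : HasDerivAt (fun s => g s - c) (g' s) s := (hd s hs).sub_const c
    have h2 : HasDerivAt (fun s => k * (s - T)) (k * 1) s :=
      ((hasDerivAt_id s).sub_const T).const_mul k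
    exact h1.mul h2.exp
  have hanti : AntitoneOn (fun s => (g s - c) * Real.exp (k * (s - T))) (Ici T) := by
    refine antitoneOn_of_deriv_nonpos (convex_Ici T)
      (fun s hs => (hH s hs).continuousAt.continuousWithinAt) ?_ ?_
    · intro s hs
      rw [interior_Ici] at hs
      exact (hH s (le_of_lt hs)).differentiableAt.differentiableWithinAt
    · intro s hs
      rw [interior_Ici] at hs
      have hs' : T ≤ s := le_of_lt hs
      rw [(hH s hs').deriv]
      have h3 := hi s hs'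
      have h4 : 0 < Real.exp (k * (s - T)) := Real.exp_pos _
      have h5 : g' s * Real.exp (k * (s - T)) + (g s - c) * (Real.exp (k * (s - T)) * (k * 1)) =
          (g' s + k * (g s - c)) * Real.exp (k * (s - T)) := by ring
      rw [h5]
      exact mul_nonpos_of_nonpos_of_nonneg (by linarith) h4.le
  have hlim : Tendsto (fun t : ℝ => (g T - c) * Real.exp (-(k * (t - T)))) atTop (𝓝 0) := by
    have h1 : Tendsto (fun t : ℝ => k * (t - T)) atTop atTop :=
      (tendsto_atTop_add_const_right atTop (-T) tendsto_id).const_mul_atTop hk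
    have h2 := (Real.tendsto_exp_neg_atTop_nhds_zero.comp h1).const_mul (g T - c)
    rw [mul_zero] at h2
    exact h2
  have hev : ∀ᶠ t : ℝ in atTop, (g T - c) * Real.exp (-(k * (t - T))) < δ :=
    hlim.eventually (gt_mem_nhds hδ)
  obtain ⟨T', hT'⟩ := eventually_atTop.1 hev
  refine ⟨max T T', le_max_left _ _, fun t ht => ?_⟩
  have hTt : T ≤ t := (le_max_left _ _).trans ht
  have h3 := hT' t ((le_max_right _ _).trans ht)
  have h6 := hanti (mem_Ici.2 le_rfl) (mem_Ici.2 hTt) hTt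
  simp only [sub_self, mul_zero, Real.exp_zero, mul_one] at h6
  have h7 : g t - c = (g t - c) * Real.exp (k * (t - T)) * Real.exp (-(k * (t - T))) := by
    rw [mul_assoc, ← Real.exp_add, add_neg_cancel, Real.exp_zero, mul_one]
  have h8 : (g t - c) * Real.exp (k * (t - T)) * Real.exp (-(k * (t - T))) ≤
      (g T - c) * Real.exp (-(k * (t - T))) :=
    mul_le_mul_of_nonneg_right h6 (Real.exp_pos _).le
  linarith

theorem yy_nonneg {L : ℝ} (hL : 0 < L) {N : ℕ} (u v : Fin N → ℝ → ℝ → ℝ) (i : Fin N) (t : ℝ) :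
    0 ≤ yy L u v i t := by
  unfold yy
  exact intervalIntegral.integral_nonneg hL.le fun x _ => sq_nonneg _

theorem Yw_nonneg {L : ℝ} (hL : 0 < L) {N : ℕ} {d : Fin N → ℝ} (hd : ∀ i, 0 < d i)
    (u v : Fin N → ℝ → ℝ → ℝ) (t : ℝ) : 0 ≤ Yw L d u v t := by
  unfold Yw
  refine Finset.sum_nonneg fun k _ => ?_
  have h1 : 0 ≤ Wg L u t := Finset.sum_nonneg fun k _ => (Real.exp_pos _).le
  have h2 : 0 ≤ gm L u k t := (Real.exp_pos _).le
  exact mul_nonneg (div_nonneg h2 h1) (mul_nonneg (hd k).le (yy_nonneg hL u v k t))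

theorem mem_PS {L : ℝ} {N : ℕ} {u : Fin N → ℝ → ℝ → ℝ} {k : Fin N} :
    k ∈ PS L u ↔ Pres L u k := by
  simp [PS]

/-- **YSM** -/
theorem ysm (hVde : VDeStatement) (hVst : VStStatement) (hYiz : YIzStatement) :
    YSmStatement := by
  intro L b a hL hb ha
  obtain ⟨CV, hCV, hV⟩ := hVde L b a hL hb ha
  refine ⟨2 * CV + L ^ 3 / a + 1, by positivity, ?_⟩
  intro ε m μ N d u v w hC hW hex had
  obtain ⟨T₀, hT₀, hVT⟩ := hV ε m μ N d u v w hC hW hex had
  have hε := hW.hε
  -- one species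
  have hone : ∀ k ∈ PS L u, ∃ Tk : ℝ, T₀ ≤ Tk ∧ ∀ t, Tk ≤ t →
      d k * yy L u v k t ≤ (2 * CV + L ^ 3 / a + 1) * ε ^ 2 := by
    intro k hk
    have hp : Pres L u k := mem_PS.1 hk
    have hdk : 0 < d k := hC.hd k
    have hak : a ≤ d k := had k hp
    -- the derivative of `g`
    have hex' : ∀ t : ℝ, ∃ g' : ℝ, T₀ ≤ t →
        HasDerivAt (fun s => yy L u v k s + 2 / d k * Vs L b u s) g' t ∧
          g' ≤ -(d k / L ^ 2 * ((yy L u v k t + 2 / d k * Vs L b u t) -
            (2 * CV + L ^ 3 / a) * ε ^ 2 / d k)) := by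
      intro t
      by_cases ht : T₀ ≤ t
      · have t0 : 0 < t := lt_of_lt_of_le hT₀ ht
        obtain ⟨⟨y', hy1, hy2⟩, hy3, -⟩ := hYiz L (2 * b) m N d u v w k hC hp t t0
        obtain ⟨hV0, V', hV1, hV2⟩ := hVst L b ε m μ N d u v w hC hW hex t t0
        refine ⟨y' + 2 / d k * V', fun _ => ⟨hy1.add (hV1.const_mul _), ?_⟩⟩
        have hYw := Yw_nonneg hL hC.hd u v t
        have hVt := hVT t ht
        have h1 : d k / L ^ 2 * yy L u v k t ≤ d k * zq L u v w k t := by
          rw [div_mul_eq_mul_div, div_le_iff₀ (by positivity)]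
          calc d k * yy L u v k t ≤ d k * (L ^ 2 * zq L u v w k t) :=
                mul_le_mul_of_nonneg_left hy3 hdk.le
            _ = _ := by ring
        have h2 : 2 / d k * V' ≤ 2 / d k * (-(R2 L m u t / 2) + ε ^ 2 * L / 2) := by
          refine mul_le_mul_of_nonneg_left ?_ (by positivity)
          have := mul_nonneg hb.le hYw
          linarith
        have h3 : 2 / d k * (-(R2 L m u t / 2) + ε ^ 2 * L / 2) =
            -(R2 L m u t / d k) + ε ^ 2 * L / d k := by
          field_simp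
        have h4 : d k / L ^ 2 * (2 / d k * Vs L b u t) ≤
            d k / L ^ 2 * (2 / d k * (CV * ε ^ 2)) :=
          mul_le_mul_of_nonneg_left (mul_le_mul_of_nonneg_left hVt (by positivity))
            (by positivity)
        have h5 : ε ^ 2 * L / d k ≤ ε ^ 2 * L / a :=
          div_le_div_of_nonneg_left (by positivity) ha hak
        have h6 : d k / L ^ 2 * (2 / d k * (CV * ε ^ 2)) + ε ^ 2 * L / a =
            d k / L ^ 2 * ((2 * CV + L ^ 3 / a) * ε ^ 2 / d k) := by
          field_simp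
        have h7 : d k / L ^ 2 * ((yy L u v k t + 2 / d k * Vs L b u t) -
            (2 * CV + L ^ 3 / a) * ε ^ 2 / d k) = d k / L ^ 2 * yy L u v k t +
            d k / L ^ 2 * (2 / d k * Vs L b u t) -
            d k / L ^ 2 * ((2 * CV + L ^ 3 / a) * ε ^ 2 / d k) := by ring
        rw [h7]
        linarith
      · exact ⟨0, fun h => absurd h ht⟩
    choose g' hg' using hex'
    obtain ⟨T', hT', hfin⟩ := eventual_le (g := fun s => yy L u v k s + 2 / d k * Vs L b u s)
      (g' := g') (T := T₀) (k := d k / L ^ 2) (c := (2 * CV + L ^ 3 / a) * ε ^ 2 / d k)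
      (δ := ε ^ 2 / d k) (by positivity) (by positivity)
      (fun t ht => (hg' t ht).1) (fun t ht => (hg' t ht).2)
    refine ⟨T', hT', fun t ht => ?_⟩
    have t0 : 0 < t := lt_of_lt_of_le hT₀ (hT'.trans ht)
    have h8 := hfin t ht
    obtain ⟨hV0, -⟩ := hVst L b ε m μ N d u v w hC hW hex t t0
    have h9 : 0 ≤ 2 / d k * Vs L b u t := mul_nonneg (by positivity) hV0
    have h10 : yy L u v k t ≤ (2 * CV + L ^ 3 / a) * ε ^ 2 / d k + ε ^ 2 / d k := by
      have h11 : yy L u v k t + 2 / d k * Vs L b u t ≤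
        (2 * CV + L ^ 3 / a) * ε ^ 2 / d k + ε ^ 2 / d k := h8
      linarith
    calc d k * yy L u v k t ≤ d k * ((2 * CV + L ^ 3 / a) * ε ^ 2 / d k + ε ^ 2 / d k) :=
          mul_le_mul_of_nonneg_left h10 hdk.le
      _ = _ := by field_simp
  choose! Tk hTk using hone
  obtain ⟨T₁, hT₁⟩ := Finset.exists_le ((PS L u).image Tk)
  refine ⟨max T₀ T₁, lt_of_lt_of_le hT₀ (le_max_left _ _), fun t ht k hk => ?_⟩
  exact (hTk k hk).2 t ((hT₁ _ (Finset.mem_image_of_mem _ hk)).trans
    ((le_max_right _ _).trans ht))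

end Pool.Agent.Lib.MP_4fbe7c_an.WH.H9
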